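import Pool.Agent.Twist.Kinds
import Pool.Agent.TateOdd.E1

/-!
# The structure theorem applies
-/

set_option autoImplicit false
set_option linter.unusedSectionVars false

universe u

namespace Pool.Agent.Twist

open Module
open Pool.Agent.OddRank (Stable Irreducible Semisimple Iso lieSpan FormOn)
open Pool.Agent.TypeIV (derivedSpan)
open Pool.Agent.TypeIV.MX (KSp KSl)
open Pool.Agent.TateOdd (Inv2 Paired Su line_not_paired)

variable {V : Type u} [AddCommGroup V] [Module ℂ V] [FiniteDimensional ℂ V]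
  {G : Set (Module.End ℂ V)} {ψ : V →ₗ[ℂ] V →ₗ[ℂ] ℂ}

/-- Self-dual irreducible subspaces are symplectic. -/
theorem form_of_kind' (hne : G.Nonempty) (hGe : ∀ e ∈ G, e * e = e) (hss : Semisimple G)
    (hkind : ∀ W, Irreducible G W → KSp G W ∨ KTr G W) :
    ∀ W, Irreducible G W → Paired G W W → ∃ φ, FormOn G W φ := by
  intro W hW hP
  rcases hkind W hW with h | h
  · exact form_of_ksp hss hW h
  · by_cases h1 : finrank ℂ W = 1
    · exact absurd hP (line_not_paired hne hGe hW h1)
    · exact form_of_ktr hGe hss hW h1 h hP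

/-- The assumptions of the structure theorem. -/
theorem su_of_kind' (halt : ∀ x, ψ x x = 0)
    (hnd : ∀ x, (∀ y, ψ x y = 0) → x = 0) (hne : G.Nonempty) (hGe : ∀ e ∈ G, e * e = e)
    (hGψ : ∀ e ∈ G, ∀ x y, ψ (e x) y + ψ x (e y) = ψ x y) (hss : Semisimple G)
    (hkind : ∀ W, Irreducible G W → KSp G W ∨ KTr G W) (htw : NoTwist G) : Su ψ G :=
  ⟨halt, hnd, hne, hGe, hGψ, hss, form_of_kind' hne hGe hss hkind,
    fun D h => (commutant_tw hnd hGe hGψ hss hkind htw D).2 h⟩

end Pool.Agent.Twist
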