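import Pool.Agent.Twist.CommTw
import Pool.Agent.NumRank.Final

/-!
# Kinds of irreducible subspaces, with generators which are scalar on the subspace
-/

set_option autoImplicit false
set_option linter.unusedSectionVars false

namespace Pool.Agent.Twist

open Module
open Pool.Agent.OddRank (Stable Irreducible Semisimple Equiv Iso exists_proj exists_family schur
  lieSpan subset_lieSpan lieSpan_lie lieSpan_le stable_span comm_span simil_span stable_of_comm
  comm_of_equiv mm mm_apply skew_mem FormOn)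
open Pool.Agent.TypeIV
open Pool.Agent.TypeIV.MX (KSp KSl rst rst_apply rst_mul IrrData irrData derived_props
  finrank_range_rst)
open Pool.Agent.TateOdd (Inv2 Paired)
open Pool.Agent.NumRank (NoSplit exists_one half_of_selfDual)

variable {K V : Type*} [Field K] [CharZero K] [IsAlgClosed K] [AddCommGroup V] [Module K V]
  [FiniteDimensional K V] {G : Set (Module.End K V)} {W : Submodule K V}

/-- The ranks on `W` of the generators which are not scalar on `W`. -/
def Rk (G : Set (Module.End K V)) (W : Submodule K V) (a : ℕ) : Prop :=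
  a ≠ 0 ∧ a ≠ finrank K W ∧ ∃ e ∈ G, finrank K (W.map e) = a

/-- The numerical criterion: there is no compatible factorisation, and one of the ranks is neither
half the dimension nor that of an exterior power. -/
def Num (G : Set (Module.End K V)) (W : Submodule K V) : Prop :=
  NoSplit (finrank K W) (Rk G W) ∧
    ∃ a, Rk G W a ∧ 2 * a ≠ finrank K W ∧
      ∀ N k : ℕ, 2 ≤ k → k + 2 ≤ N → finrank K W = N.choose k → a ≠ (N - 1).choose (k - 1)

section Sc

theorem scOn_iff {e : Module.End K V} (hee : e * e = e) (heW : ∀ w ∈ W, e w ∈ W) :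
    ScOn e W ↔ finrank K (W.map e) = 0 ∨ finrank K (W.map e) = finrank K W := by
  constructor
  · rintro (h | h)
    · left
      rw [Submodule.finrank_eq_zero, Submodule.eq_bot_iff]
      rintro _ ⟨w, hw, rfl⟩
      exact h w hw
    · right
      have h4 : W.map e = W := by
        ext w
        constructor
        · rintro ⟨w', hw', rfl⟩
          rw [h w' hw']
          exact hw'
        · exact fun hw => ⟨w, hw, h w hw⟩
      rw [h4]
  · rintro (h | h)
    · left
      intro w hw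
      rw [Submodule.finrank_eq_zero, Submodule.eq_bot_iff] at h
      exact h _ ⟨w, hw, rfl⟩
    · right
      have h1 : W.map e ≤ W := by
        rintro _ ⟨w, hw, rfl⟩
        exact heW w hw
      have h2 : W.map e = W := Submodule.eq_of_le_of_finrank_eq h1 h
      intro w hw
      rw [← h2] at hw
      obtain ⟨w', hw', rfl⟩ := hw
      rw [← Module.End.mul_apply, hee]

theorem rk_iff (hGe : ∀ e ∈ G, e * e = e) (hW : Stable G W) (a : ℕ) :
    Rk G W a ↔ ∃ e ∈ G, ¬ ScOn e W ∧ finrank K (W.map e) = a := by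
  constructor
  · rintro ⟨h0, h1, e, he, rfl⟩
    refine ⟨e, he, fun h => ?_, rfl⟩
    rcases (scOn_iff (hGe e he) (hW e he)).1 h with h | h
    · exact h0 h
    · exact h1 h
  · rintro ⟨e, he, h, rfl⟩
    rw [scOn_iff (hGe e he) (hW e he)] at h
    push Not at h
    exact ⟨h.1, h.2, e, he, rfl⟩

end Sc

section Irr

variable (hGe : ∀ e ∈ G, e * e = e) (hss : Semisimple G) (hW : Irreducible G W)
include hGe hW

/-- The generators which are not scalar suffice. -/
theorem irrData₀ {p : V →ₗ[K] W} (hp : ∀ w : W, p w = w) :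
    IrrData ((lieSpan G).map (rst p)) (rst p '' {e ∈ G | ¬ ScOn e W}) := by
  have H := irrData hGe hW hp
  have hGst : ∀ e ∈ G, ∀ w ∈ W, e w ∈ W := fun e he => hW.1 e he
  have hgst : ∀ x ∈ lieSpan G, ∀ w ∈ W, x w ∈ W := fun x hx => stable_span hW.1 x hx
  have hsc : ∀ e ∈ G, ScOn e W → rst p e = 0 ∨ rst p e = 1 := by
    intro e he h
    rcases h with h | h
    · left
      ext w
      rw [rst_apply hp (hGst e he), h w w.2]
      rfl
    · right
      ext w
      rw [rst_apply hp (hGst e he), h w w.2]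
      rfl
  have hsub : rst p '' {e ∈ G | ¬ ScOn e W} ⊆ rst p '' G := Set.image_mono fun e he => he.1
  refine ⟨H.hlie, fun e he => H.hG e (hsub he), fun e he => H.hGe e (hsub he), ?_, ?_⟩
  · intro U hU
    refine H.hirr U ?_
    rintro _ ⟨e, he, rfl⟩ w hw
    by_cases h : ScOn e W
    · rcases hsc e he h with h | h
      · rw [h]
        exact U.zero_mem
      · rw [h]
        exact hw
    · exact hU _ ⟨e, ⟨he, h⟩, rfl⟩ w hw
  · rintro φ hφ _ ⟨x, hx, rfl⟩
    let g' : Submodule K (Module.End K V) :=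
      { carrier := {x | (∀ w ∈ W, x w ∈ W) ∧ ∃ κ : K, ∀ u v,
          φ (rst p x u) v + φ u (rst p x v) = κ * φ u v}
        add_mem' := by
          rintro x y ⟨hx, κ, hκ⟩ ⟨hy, κ', hκ'⟩
          refine ⟨fun w hw => W.add_mem (hx w hw) (hy w hw), κ + κ', fun u v => ?_⟩
          simp only [map_add, LinearMap.add_apply]
          linear_combination hκ u v + hκ' u v
        zero_mem' := ⟨fun w _ => W.zero_mem, 0, fun u v => by simp⟩
        smul_mem' := by
          rintro c x ⟨hx, κ, hκ⟩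
          refine ⟨fun w hw => W.smul_mem c (hx w hw), c * κ, fun u v => ?_⟩
          simp only [map_smul, LinearMap.smul_apply, smul_eq_mul]
          linear_combination c * hκ u v }
    refine ((lieSpan_le (g := g') ?_ ?_) hx).2
    · intro e he
      refine ⟨hGst e he, ?_⟩
      by_cases h : ScOn e W
      · rcases hsc e he h with h | h
        · exact ⟨0, fun u v => by rw [h]; simp⟩
        · exact ⟨2, fun u v => by rw [h]; simp only [Module.End.one_apply]; ring⟩
      · exact ⟨1, fun u v => by rw [hφ _ ⟨e, ⟨he, h⟩, rfl⟩ u v, one_mul]⟩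
    · rintro x ⟨hx, κ, hκ⟩ y ⟨hy, κ', hκ'⟩
      refine ⟨fun w hw => W.sub_mem (hx _ (hy w hw)) (hy _ (hx w hw)), 0, fun u v => ?_⟩
      rw [map_sub, rst_mul hp hx hy, rst_mul hp hy hx]
      simp only [LinearMap.sub_apply, Module.End.mul_apply, map_sub]
      linear_combination hκ (rst p y u) v + hκ u (rst p y v) - hκ' (rst p x u) v -
        hκ' u (rst p x v) - κ' * hκ u v + κ * hκ' u v

theorem restr_ns₀ {p : V →ₗ[K] W} (hp : ∀ w : W, p w = w) :
    ∀ e ∈ rst p '' {e ∈ G | ¬ ScOn e W}, e ≠ 0 ∧ e ≠ 1 := by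
  have hGst : ∀ e ∈ G, ∀ w ∈ W, e w ∈ W := fun e he => hW.1 e he
  rintro _ ⟨e, ⟨he, hsc⟩, rfl⟩
  constructor
  · intro h
    apply hsc
    left
    intro w hw
    rw [← rst_apply hp (hGst e he) ⟨w, hw⟩, h]
    rfl
  · intro h
    apply hsc
    right
    intro w hw
    rw [← rst_apply hp (hGst e he) ⟨w, hw⟩, h]
    rfl

/-- A generator which is not balanced: there is no form. -/
theorem restr_nsd₀ {e₀ : Module.End K V} (he₀ : e₀ ∈ G) (h0 : finrank K (W.map e₀) ≠ 0)
    (h1 : finrank K (W.map e₀) ≠ finrank K W) (h2 : 2 * finrank K (W.map e₀) ≠ finrank K W)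
    {p : V →ₗ[K] W} (hp : ∀ w : W, p w = w) :
    ∀ φ : W →ₗ[K] W →ₗ[K] K, (∀ x, (∀ y, φ x y = 0) → x = 0) →
      ∃ e ∈ rst p '' {e ∈ G | ¬ ScOn e W}, ∃ u v, φ (e u) v + φ u (e v) ≠ φ u v := by
  have hGst : ∀ e ∈ G, ∀ w ∈ W, e w ∈ W := fun e he => hW.1 e he
  intro φ hφ
  by_contra hcon
  push Not at hcon
  have hsc : ¬ ScOn e₀ W := by
    rw [scOn_iff (hGe e₀ he₀) (hGst e₀ he₀)]
    push Not
    exact ⟨h0, h1⟩
  have hee : rst p e₀ * rst p e₀ = rst p e₀ := by
    rw [← rst_mul hp (hGst e₀ he₀) (hGst e₀ he₀), hGe e₀ he₀]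
  have h3 := half_of_selfDual (W := (⊤ : Submodule K W)) (e := rst p e₀) hee
    (fun w _ => Submodule.mem_top) (φ := φ) (fun x _ h => hφ x fun y => h y Submodule.mem_top)
    (fun x _ y _ => hcon _ ⟨e₀, ⟨he₀, hsc⟩, rfl⟩ x y)
  rw [Submodule.map_top, finrank_range_rst hp (hGst e₀ he₀), finrank_top] at h3
  exact h2 h3

include hss

/-- The Lie algebra contains an element of square zero and rank one. -/
theorem ktr_of_one {N : Module.End K V} (hN : N ∈ lieSpan G) (hNN : N * N = 0)
    (hone : finrank K (W.map N) = 1) {e₀ : Module.End K V} (he₀ : e₀ ∈ G)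
    (h0 : finrank K (W.map e₀) ≠ 0) (h1 : finrank K (W.map e₀) ≠ finrank K W)
    (h2 : 2 * finrank K (W.map e₀) ≠ finrank K W) : KTr G W := by
  obtain ⟨p, hp, hpe⟩ := exists_proj hss hW.1
  have H := irrData₀ hGe hW hp
  have hgst : ∀ x ∈ lieSpan G, ∀ w ∈ W, x w ∈ W := fun x hx => stable_span hW.1 x hx
  have hNN' : rst p N * rst p N = 0 := by
    rw [← rst_mul hp (hgst N hN) (hgst N hN), hNN, map_zero]
  have hone' : finrank K (LinearMap.range (rst p N)) = 1 := by
    rw [finrank_range_rst hp (hgst N hN)]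
    exact hone
  intro Z hZ
  obtain ⟨x, hx, hxZ⟩ := H.sl_of_one (restr_ns₀ hGe hW hp) (restr_nsd₀ hGe hW he₀ h0 h1 h2 hp)
    ⟨N, hN, rfl⟩ hNN' hone' hZ
  exact ⟨x, hx, fun w => by rw [← hxZ, rst_apply hp (hgst x hx)]⟩

/-- The numerical criterion. -/
theorem ktr_of_num (hnum : Num G W) : KTr G W := by
  obtain ⟨hT, a, ⟨h0, h1, e₀, he₀, rfl⟩, h2, hU⟩ := hnum
  obtain ⟨p, hp, hpe⟩ := exists_proj hss hW.1
  have H := irrData₀ hGe hW hp
  have hgst : ∀ x ∈ lieSpan G, ∀ w ∈ W, x w ∈ W := fun x hx => stable_span hW.1 x hx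
  have hGst : ∀ e ∈ G, ∀ w ∈ W, e w ∈ W := fun e he => hW.1 e he
  have hle : lieSpan (rst p '' {e ∈ G | ¬ ScOn e W}) ≤ (lieSpan G).map (rst p) :=
    lieSpan_le H.hG H.hlie
  have hrk : ∀ e ∈ G, finrank K (LinearMap.range (rst p e)) = finrank K (W.map e) := fun e he =>
    finrank_range_rst hp (hGst e he)
  have hsc : ¬ ScOn e₀ W := by
    rw [scOn_iff (hGe e₀ he₀) (hGst e₀ he₀)]
    push Not
    exact ⟨h0, h1⟩
  have hT' : NoSplit (finrank K W) fun a => ∃ e ∈ rst p '' {e ∈ G | ¬ ScOn e W},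
      finrank K (LinearMap.range e) = a := by
    have h3 : (fun a => ∃ e ∈ rst p '' {e ∈ G | ¬ ScOn e W},
        finrank K (LinearMap.range e) = a) = Rk G W := by
      funext a
      apply propext
      rw [rk_iff hGe hW.1]
      constructor
      · rintro ⟨_, ⟨e, ⟨he, hs⟩, rfl⟩, rfl⟩
        exact ⟨e, he, hs, (hrk e he).symm⟩
      · rintro ⟨e, he, hs, rfl⟩
        exact ⟨_, ⟨e, ⟨he, hs⟩, rfl⟩, hrk e he⟩
    rw [h3]
    exact hT
  obtain ⟨N, hN, hNN, h⟩ := exists_one H.hGe H.hirr (restr_ns₀ hGe hW hp) hT'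
    (e₀ := rst p e₀) ⟨e₀, ⟨he₀, hsc⟩, rfl⟩ (by rw [hrk e₀ he₀]; exact h2)
    (by rw [hrk e₀ he₀]; exact hU)
  intro Z hZ
  obtain ⟨x, hx, hxZ⟩ := H.sl_of_one (restr_ns₀ hGe hW hp) (restr_nsd₀ hGe hW he₀ h0 h1 h2 hp)
    (hle hN) hNN h hZ
  exact ⟨x, hx, fun w => by rw [← hxZ, rst_apply hp (hgst x hx)]⟩

/-- Planes. -/
theorem ktr_of_two (h2 : finrank K W = 2) : KTr G W := by
  obtain ⟨p, hp, hpe⟩ := exists_proj hss hW.1
  have H := irrData₀ hGe hW hp
  have hns := restr_ns₀ hGe hW hp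
  have hgst : ∀ x ∈ lieSpan G, ∀ w ∈ W, x w ∈ W := fun x hx => stable_span hW.1 x hx
  have hnt : Nontrivial W := by
    rw [← finrank_pos_iff (R := K)]
    omega
  -- the determinant form
  obtain ⟨φ, halt, hnd, htr⟩ : ∃ φ : W →ₗ[K] W →ₗ[K] K, (∀ x, φ x x = 0) ∧
      (∀ x, (∀ y, φ x y = 0) → x = 0) ∧
      ∀ (D : Module.End K W) u v, φ (D u) v + φ u (D v) = LinearMap.trace K W D * φ u v := by
    let b : Basis (Fin 2) K W := (finBasis K W).reindex (finCongr h2)
    let φ : W →ₗ[K] W →ₗ[K] K := (b.coord 0).smulRight (b.coord 1) -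
      (b.coord 1).smulRight (b.coord 0)
    have hφ : ∀ u v, φ u v = b.repr u 0 * b.repr v 1 - b.repr u 1 * b.repr v 0 := by
      intro u v
      simp [φ]
    refine ⟨φ, fun x => by rw [hφ]; ring, fun x hx => ?_, fun D u v => ?_⟩
    · have e0 := hx (b 0)
      have e1 := hx (b 1)
      rw [hφ] at e0 e1
      simp at e0 e1
      apply b.repr.injective
      ext i
      fin_cases i
      · simpa using e1
      · simpa using e0
    · rw [LinearMap.trace_eq_matrix_trace K b, Matrix.trace, Fin.sum_univ_two, Matrix.diag_apply,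
        Matrix.diag_apply, LinearMap.toMatrix_apply, LinearMap.toMatrix_apply]
      have hu : ∀ (w : W) (i : Fin 2), b.repr (D w) i =
          b.repr w 0 * b.repr (D (b 0)) i + b.repr w 1 * b.repr (D (b 1)) i := by
        intro w i
        conv_lhs => rw [← b.sum_repr w, Fin.sum_univ_two, map_add, map_smul, map_smul, map_add,
          map_smul, map_smul, Finsupp.add_apply, Finsupp.smul_apply, Finsupp.smul_apply,
          smul_eq_mul, smul_eq_mul]
      rw [hφ, hφ, hφ, hu u 0, hu u 1, hu v 0, hu v 1]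
      ring
  have hrk1 : ∀ e ∈ rst p '' {e ∈ G | ¬ ScOn e W}, LinearMap.trace K W e = 1 := by
    intro e he
    have hee := H.hGe e he
    obtain ⟨h0, h1⟩ := hns e he
    rw [Pool.Agent.PrimePow.trace_idem hee]
    have e1 : finrank K (LinearMap.range e) ≠ 0 := by
      intro h
      apply h0
      rwa [Submodule.finrank_eq_zero, LinearMap.range_eq_bot] at h
    have e2 : finrank K (LinearMap.range e) ≠ 2 := by
      intro h
      apply h1
      have h3 : LinearMap.range e = ⊤ := Submodule.eq_top_of_finrank_eq (h.trans h2.symm)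
      ext w
      have h4 : w ∈ LinearMap.range e := h3 ▸ Submodule.mem_top
      obtain ⟨w', rfl⟩ := h4
      rw [← Module.End.mul_apply, hee, Module.End.one_apply]
    have e3 : finrank K (LinearMap.range e) ≤ 2 := h2 ▸ Submodule.finrank_le _
    have e4 : finrank K (LinearMap.range e) = 1 := by omega
    rw [e4, Nat.cast_one]
  have hφG : ∀ e ∈ rst p '' {e ∈ G | ¬ ScOn e W}, ∀ u v, φ (e u) v + φ u (e v) = φ u v := by
    intro e he u v
    rw [htr, hrk1 e he, one_mul]
  -- an element of square zero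
  obtain ⟨e, he⟩ : ∃ e, e ∈ rst p '' {e ∈ G | ¬ ScOn e W} := by
    by_contra hcon
    push Not at hcon
    obtain ⟨b, hb⟩ := exists_ne (0 : W)
    rcases H.hirr (K ∙ b) (fun e he => absurd he (hcon e)) with h | h
    · rw [Submodule.span_singleton_eq_bot] at h
      exact hb h
    · have h3 := finrank_span_singleton (K := K) hb
      rw [h, finrank_top] at h3
      omega
  obtain ⟨x, hx, hxe⟩ : ∃ x ∈ (lieSpan G).map (rst p), e * x ≠ x * e := by
    by_contra hcon
    push Not at hcon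
    rcases H.hirr (LinearMap.ker e) (fun e' he' w hw => by
      rw [LinearMap.mem_ker] at hw ⊢
      rw [← Module.End.mul_apply, hcon e' (H.hG e' he'), Module.End.mul_apply, hw, map_zero])
      with h | h
    · apply (hns e he).2
      rw [LinearMap.ker_eq_bot] at h
      ext w
      rw [h (by rw [← Module.End.mul_apply, H.hGe e he, Module.End.one_apply] :
        e (e w) = e ((1 : Module.End K W) w))]
    · exact (hns e he).1 (LinearMap.ker_eq_top.1 h)
  have hdeg : ∀ E : Module.End K W, E * E = E →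
      (∀ y ∈ (lieSpan G).map (rst p), E * y - y * E ∈ (lieSpan G).map (rst p)) →
      E * x * (1 - E) ∈ (lieSpan G).map (rst p) := fun E hE h =>
    Pool.Agent.OddRank.deg_one_mem hE h hx
  have hsq : ∀ E : Module.End K W, E * E = E → (E * x * (1 - E)) * (E * x * (1 - E)) = 0 := by
    intro E hE
    have : (1 - E) * E = 0 := by rw [sub_mul, one_mul, hE, sub_self]
    calc (E * x * (1 - E)) * (E * x * (1 - E)) = E * x * ((1 - E) * E) * (x * (1 - E)) := by
          simp only [mul_assoc]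
      _ = 0 := by rw [this, mul_zero, zero_mul]
  obtain ⟨N, hN, hNN, hN0⟩ : ∃ N ∈ (lieSpan G).map (rst p), N * N = 0 ∧ N ≠ 0 := by
    rcases comp_ne hxe with h | h
    · exact ⟨e * x * (1 - e), hdeg e (H.hGe e he) fun y hy => H.hlie _ (H.hG e he) _ hy,
        hsq e (H.hGe e he), h⟩
    · have hEE : (1 - e) * (1 - e) = 1 - e := by
        rw [mul_sub, sub_mul, sub_mul, mul_one, one_mul, H.hGe e he, mul_one, sub_self, sub_zero]
      refine ⟨(1 - e) * x * (1 - (1 - e)), hdeg _ hEE ?_, hsq _ hEE, h⟩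
      intro y hy
      have := ((lieSpan G).map (rst p)).neg_mem (H.hlie _ (H.hG e he) _ hy)
      convert this using 1
      rw [sub_mul, mul_sub, one_mul, mul_one]
      abel
  have hodd : Odd (finrank K (LinearMap.range N)) := by
    have e1 : finrank K (LinearMap.range N) ≠ 0 := by
      intro h
      apply hN0
      rwa [Submodule.finrank_eq_zero, LinearMap.range_eq_bot] at h
    have e2 : LinearMap.range N ≤ LinearMap.ker N := by
      rintro _ ⟨w, rfl⟩
      rw [LinearMap.mem_ker, ← Module.End.mul_apply, hNN]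
      rfl
    have e3 := Submodule.finrank_mono e2
    have e4 := LinearMap.finrank_range_add_finrank_ker N
    have e5 : finrank K (LinearMap.range N) = 1 := by omega
    rw [e5]
    exact odd_one
  intro Z hZ
  obtain ⟨z, hz, hzZ⟩ := skew_mem halt hnd (H.mm_of_odd hnd hφG hN hNN hodd) (D := Z)
    (fun u v => by rw [htr, hZ, zero_mul])
  exact ⟨z, hz, fun w => by rw [← hzZ, rst_apply hp (hgst z hz)]⟩

/-- Self-dual irreducible subspaces on which all operators of trace zero are induced are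
symplectic. -/
theorem form_of_ktr (h1 : finrank K W ≠ 1) (hk : KTr G W) (hP : Paired G W W) :
    ∃ φ, FormOn G W φ := by
  obtain ⟨p, hp, hpe⟩ := exists_proj hss hW.1
  have H := irrData hGe hW hp
  have hgst : ∀ x ∈ lieSpan G, ∀ w ∈ W, x w ∈ W := fun x hx => stable_span hW.1 x hx
  have hGst : ∀ e ∈ G, ∀ w ∈ W, e w ∈ W := fun e he => hW.1 e he
  obtain ⟨φ, hφ, h0⟩ := hP
  refine ⟨φ, ?_, hφ.nd hW hW.1 h0, fun e he x hx y hy => hφ e he x hx y hy⟩
  intro a ha
  by_cases ha0 : a = 0
  · rw [ha0, map_zero]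
  -- a functional vanishing at `a`
  have hlt : (K ∙ (⟨a, ha⟩ : W)) ≠ ⊤ := by
    intro h
    apply h1
    rw [← finrank_top K W, ← h, finrank_span_singleton]
    exact fun h => ha0 (congrArg Subtype.val h)
  obtain ⟨θ, hθ0, hθ⟩ := Submodule.exists_le_ker_of_lt_top _ (lt_top_iff_ne_top.2 hlt)
  have hθa : θ ⟨a, ha⟩ = 0 := hθ (Submodule.mem_span_singleton_self _)
  obtain ⟨u, hu⟩ : ∃ u, θ u ≠ 0 := by
    by_contra hcon
    push Not at hcon
    exact hθ0 (LinearMap.ext hcon)
  obtain ⟨x, hx, hxZ⟩ := hk (θ.smulRight ⟨a, ha⟩) (by rw [LinearMap.trace_smulRight, hθa])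
  have hxr : rst p x = θ.smulRight ⟨a, ha⟩ := by
    ext w
    rw [rst_apply hp (hgst x hx), hxZ]
  have h2 := H.skew_of_sq (φ := φ.compl₁₂ W.subtype W.subtype) (by
      rintro _ ⟨e, he, rfl⟩ v v'
      have h3 := hφ e he v v.2 v' v'.2
      rw [← rst_apply hp (hGst e he), ← rst_apply hp (hGst e he)] at h3
      exact h3) (x := rst p x) ⟨x, hx, rfl⟩ (by
      rw [hxr]
      refine LinearMap.ext fun w => ?_
      rw [Module.End.mul_apply, LinearMap.smulRight_apply, LinearMap.smulRight_apply, map_smul,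
        hθa, smul_zero, zero_smul]
      rfl) u ⟨a, ha⟩
  rw [hxr] at h2
  simp only [LinearMap.smulRight_apply, hθa, zero_smul, map_zero, add_zero, map_smul,
    LinearMap.smul_apply, LinearMap.compl₁₂_apply, Submodule.subtype_apply, smul_eq_mul] at h2
  rcases mul_eq_zero.1 h2 with h3 | h3
  · exact absurd h3 hu
  · exact h3

end Irr

/-- The symplectic case. -/
theorem form_of_ksp (hss : Semisimple G) (hW : Irreducible G W) (h : KSp G W) :
    ∃ φ, FormOn G W φ := by
  obtain ⟨φ, halt, hnd, hφ, -⟩ := h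
  obtain ⟨p, hp, hpe⟩ := exists_proj hss hW.1
  refine ⟨φ.compl₁₂ p p, ?_, ?_, ?_⟩
  · intro x _
    exact halt (p x)
  · intro x hx hxy
    have e1 : p x = ⟨x, hx⟩ := hp ⟨x, hx⟩
    have h1 : (⟨x, hx⟩ : W) = 0 := by
      apply hnd
      intro y
      have h2 := hxy y y.2
      rw [LinearMap.compl₁₂_apply, hp y, e1] at h2
      exact h2
    exact congrArg Subtype.val h1
  · intro e he x hx y hy
    simp only [LinearMap.compl₁₂_apply]
    exact hφ e he (p x) (p (e x)) (p y) (p (e y)) (hpe e he x) (hpe e he y)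

theorem ktr_of_ksl (h : KSl G W) : KTr G W := h.2.2

theorem ktr_of_line (h : finrank K W = 1) : KTr G W := by
  intro Z hZ
  refine ⟨0, (lieSpan G).zero_mem, fun w => ?_⟩
  obtain ⟨v, hv0, hv⟩ := finrank_eq_one_iff'.1 h
  obtain ⟨c, hc⟩ := hv (Z v)
  have h1 : Z = c • (1 : Module.End K W) := by
    ext w
    obtain ⟨d, rfl⟩ := hv w
    rw [map_smul, ← hc, LinearMap.smul_apply, Module.End.one_apply, smul_comm]
  rw [h1, map_smul, LinearMap.trace_one, h, Nat.cast_one, smul_eq_mul, mul_one] at hZ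
  rw [h1, hZ]
  simp

/-- There are no twists if no generator is scalar. -/
theorem noTwist_of_ns (hW : ∀ W, Irreducible G W → finrank K W ≠ 1 → ∀ e ∈ G, ¬ ScOn e W) :
    NoTwist G := by
  rintro W W' hW1 hW' h1 ⟨f, hf, hinj, hc⟩
  left
  have hfW : ∀ w ∈ W, f w ∈ W' := fun w hw => hf ▸ ⟨w, hw, rfl⟩
  refine ⟨(f.restrict hfW : W →ₗ[K] W'), ?_, ?_, ?_⟩
  · intro e he u v huv
    rcases hc e he with h | h
    · change f v = e (f u)
      rw [huv, h u u.2]
    · exact absurd h.1 (hW W hW1 h1 e he)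
  · rw [injective_iff_map_eq_zero]
    intro w hw
    exact Subtype.ext (hinj w w.2 (congrArg Subtype.val hw))
  · rintro ⟨y, hy⟩
    rw [← hf] at hy
    obtain ⟨w, hw, rfl⟩ := hy
    exact ⟨⟨w, hw⟩, rfl⟩

end Pool.Agent.Twist
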