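import Pool.Agent.TypeIV.CommMixed
import Pool.Agent.TateOdd.Pair
import Pool.Agent.Twist.MixedTw

/-!
# The commutant form, with generators which are scalar on some irreducible subspaces
-/

set_option autoImplicit false
set_option linter.unusedSectionVars false

namespace Pool.Agent.Twist

open Pool.Agent.OddRank (Stable Irreducible Semisimple Equiv Iso exists_proj exists_family schur
  lieSpan subset_lieSpan lieSpan_lie lieSpan_le stable_span comm_span simil_span stable_of_comm
  comm_of_equiv mm mm_apply)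
open Pool.Agent.TypeIV
open Pool.Agent.TypeIV.MX (KSp rst rst_apply rst_mul IrrData irrData derived_props)
open Pool.Agent.TateOdd (Inv2 Paired)

variable {K V : Type*} [Field K] [CharZero K] [IsAlgClosed K] [AddCommGroup V] [Module K V]
  [FiniteDimensional K V]

/-- The operator is zero or one on `W`. -/
def ScOn (e : Module.End K V) (W : Submodule K V) : Prop :=
  (∀ w ∈ W, e w = 0) ∨ ∀ w ∈ W, e w = w

/-- All operators of trace zero on `W` are induced. -/
def KTr (G : Set (Module.End K V)) (W : Submodule K V) : Prop :=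
  ∀ Z : Module.End K W, LinearMap.trace K W Z = 0 → ∃ x ∈ lieSpan G, ∀ w : W, (Z w : V) = x w

/-- `W` and `W'` are isomorphic up to a twist. -/
def Tw (G : Set (Module.End K V)) (W W' : Submodule K V) : Prop :=
  ∃ f : Module.End K V, W.map f = W' ∧ (∀ w ∈ W, f w = 0 → w = 0) ∧
    ∀ e ∈ G, (∀ w ∈ W, f (e w) = e (f w)) ∨ ScOn e W ∧ ScOn e W'

/-- Irreducible subspaces, not lines, which are isomorphic up to a twist are isomorphic or dual. -/
def NoTwist (G : Set (Module.End K V)) : Prop :=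
  ∀ W W', Irreducible G W → Irreducible G W' → Module.finrank K W ≠ 1 → Tw G W W' →
    Iso G W W' ∨ Paired G W W'

/-- Every irreducible subspace has a dual. -/
theorem exists_dual' {ψ : V →ₗ[K] V →ₗ[K] K} (hnd : ∀ x, (∀ y, ψ x y = 0) → x = 0)
    {G : Set (Module.End K V)} (hGψ : ∀ e ∈ G, ∀ x y, ψ (e x) y + ψ x (e y) = ψ x y)
    {t : Finset (Submodule K V)} (hsup : t.sup id = ⊤) {W : Submodule K V}
    (hW : Irreducible G W) : ∃ U ∈ t, Inv2 G W U ψ ∧ ∃ x ∈ W, ∃ y ∈ U, ψ x y ≠ 0 := by
  obtain ⟨w, hw, hw0⟩ := (Submodule.ne_bot_iff W).1 hW.2.1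
  by_contra hcon
  apply hw0
  apply hnd
  have h1 : t.sup id ≤ LinearMap.ker (ψ w) := by
    refine Finset.sup_le fun U hU y hy => ?_
    by_contra h
    exact hcon ⟨U, hU, fun e he x _ y _ => hGψ e he x y, w, hw, y, hy, h⟩
  rw [hsup] at h1
  exact fun y => h1 Submodule.mem_top

/-- A twisted pairing gives a twisted isomorphism with the dual. -/
theorem tw_of_pairing {G : Set (Module.End K V)} {W W' U : Submodule K V}
    (hW : Irreducible G W) (hU : Irreducible G U) {ψ : V →ₗ[K] V →ₗ[K] K} (hψ : Inv2 G W U ψ)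
    (h0 : ∃ x ∈ W, ∃ y ∈ U, ψ x y ≠ 0) {φ : W →ₗ[K] W' →ₗ[K] K}
    (h1 : ∀ x, (∀ y, φ x y = 0) → x = 0) (h2 : ∀ y, (∀ x, φ x y = 0) → y = 0)
    (hW' : Stable G W')
    (hφ : ∀ e ∈ G, (∀ (u u₂ : W) (v v₂ : W'), (u₂ : V) = e u → (v₂ : V) = e v →
      φ u₂ v + φ u v₂ = φ u v) ∨ ScOn e W ∧ ScOn e W') :
    Tw G U W' ∧ Module.finrank K U = Module.finrank K W := by
  classical
  have ndl : ∀ x ∈ W, (∀ y ∈ U, ψ x y = 0) → x = 0 := hψ.nd hW hU.1 h0
  have ndr : ∀ y ∈ U, (∀ x ∈ W, ψ x y = 0) → y = 0 := hψ.nd_right hW.1 hU h0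
  -- the two identifications with the dual of `W`
  let A : U →ₗ[K] Module.Dual K W := (ψ.compl₁₂ W.subtype U.subtype).flip
  have hA : ∀ (y : U) (x : W), A y x = ψ x y := fun y x => rfl
  have hAinj : Function.Injective A := by
    rw [injective_iff_map_eq_zero]
    intro y hy
    apply Subtype.ext
    refine ndr y y.2 fun x hx => ?_
    rw [← hA y ⟨x, hx⟩, hy, LinearMap.zero_apply]
  let A' : W →ₗ[K] Module.Dual K U := ψ.compl₁₂ W.subtype U.subtype
  have hA' : ∀ (x : W) (y : U), A' x y = ψ x y := fun y x => rfl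
  have hA'inj : Function.Injective A' := by
    rw [injective_iff_map_eq_zero]
    intro x hx
    apply Subtype.ext
    refine ndl x x.2 fun y hy => ?_
    rw [← hA' x ⟨y, hy⟩, hx, LinearMap.zero_apply]
  have hrkU : Module.finrank K U = Module.finrank K (Module.Dual K W) := by
    apply le_antisymm
    · exact LinearMap.finrank_le_finrank_of_injective hAinj
    · rw [Subspace.dual_finrank_eq]
      have := LinearMap.finrank_le_finrank_of_injective hA'inj
      rwa [Subspace.dual_finrank_eq] at this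
  have hBinj : Function.Injective φ.flip := by
    rw [injective_iff_map_eq_zero]
    exact fun y hy => h2 y fun x => by rw [← LinearMap.flip_apply, hy, LinearMap.zero_apply]
  have hB'inj : Function.Injective φ := by
    rw [injective_iff_map_eq_zero]
    exact fun x hx => h1 x fun y => by rw [hx, LinearMap.zero_apply]
  have hrkW' : Module.finrank K W' = Module.finrank K (Module.Dual K W) := by
    apply le_antisymm
    · exact LinearMap.finrank_le_finrank_of_injective hBinj
    · rw [Subspace.dual_finrank_eq]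
      have := LinearMap.finrank_le_finrank_of_injective hB'inj
      rwa [Subspace.dual_finrank_eq] at this
  let EA : U ≃ₗ[K] Module.Dual K W := LinearEquiv.ofInjectiveOfFinrankEq A hAinj hrkU
  let EB : W' ≃ₗ[K] Module.Dual K W := LinearEquiv.ofInjectiveOfFinrankEq φ.flip hBinj hrkW'
  have hEA : ∀ (y : U) (x : W), EA y x = ψ x y := fun y x => rfl
  have hEB : ∀ (y : W') (x : W), EB y x = φ x y := fun y x => rfl
  let f : U ≃ₗ[K] W' := EA.trans EB.symm
  have hf : ∀ (x : W) (u : U), φ x (f u) = ψ x u := by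
    intro x u
    rw [← hEB, ← hEA]
    change EB (EB.symm (EA u)) x = _
    rw [LinearEquiv.apply_symm_apply]
  obtain ⟨c, hc⟩ := Submodule.exists_isCompl U
  set q : V →ₗ[K] U := U.projectionOnto c hc with hq
  have hqu : ∀ u : U, q u = u := fun u => Submodule.projectionOnto_apply_left hc u
  set s : Module.End K V := W'.subtype ∘ₗ f.toLinearMap ∘ₗ q with hs
  have hsu : ∀ u : U, s u = f u := by
    intro u
    change ((f (q u) : W') : V) = f u
    rw [hqu]
  refine ⟨⟨s, ?_, ?_, ?_⟩, by rw [hrkU, Subspace.dual_finrank_eq]⟩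
  · ext y
    constructor
    · rintro ⟨u, hu, rfl⟩
      rw [hsu ⟨u, hu⟩]
      exact (f _).2
    · intro hy
      refine ⟨f.symm ⟨y, hy⟩, (f.symm _).2, ?_⟩
      rw [hsu, LinearEquiv.apply_symm_apply]
  · intro u hu h
    rw [hsu ⟨u, hu⟩] at h
    have h3 : f ⟨u, hu⟩ = 0 := Subtype.ext h
    exact congrArg Subtype.val ((LinearEquiv.map_eq_zero_iff f).1 h3)
  · intro e he
    rcases hφ e he with h | ⟨hsW, hsW'⟩
    · left
      intro u hu
      have heu : e u ∈ U := hU.1 e he u hu
      have hef : e (f ⟨u, hu⟩ : V) ∈ W' := hW' e he _ (f ⟨u, hu⟩).2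
      rw [hsu ⟨e u, heu⟩, hsu ⟨u, hu⟩]
      have key : f ⟨e u, heu⟩ = ⟨e (f ⟨u, hu⟩ : V), hef⟩ := by
        rw [← sub_eq_zero]
        apply h2
        intro x
        have hex : e (x : V) ∈ W := hW.1 e he x x.2
        have e1 := h x ⟨e x, hex⟩ (f ⟨u, hu⟩) ⟨e (f ⟨u, hu⟩ : V), hef⟩ rfl rfl
        have e2 := hψ e he x x.2 u hu
        rw [map_sub, hf]
        rw [hf, hf] at e1
        change ψ x (e u) - _ = 0
        change ψ (e x) u + _ = ψ x u at e1
        linear_combination e2 - e1
      exact congrArg Subtype.val key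
    · right
      refine ⟨?_, hsW'⟩
      rcases hsW with h | h
      · right
        intro u hu
        rw [← sub_eq_zero]
        refine ndr _ (U.sub_mem (hU.1 e he u hu) hu) fun x hx => ?_
        have e2 := hψ e he x hx u hu
        rw [h x hx, map_zero, LinearMap.zero_apply, zero_add] at e2
        rw [map_sub, e2, sub_self]
      · left
        intro u hu
        refine ndr _ (hU.1 e he u hu) fun x hx => ?_
        have e2 := hψ e he x hx u hu
        rw [h x hx] at e2
        linear_combination e2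

/-- The theorem in commutant form. -/
theorem commutant_tw {ψ : V →ₗ[K] V →ₗ[K] K} (hnd : ∀ x, (∀ y, ψ x y = 0) → x = 0)
    {G : Set (Module.End K V)} (hGe : ∀ e ∈ G, e * e = e)
    (hGψ : ∀ e ∈ G, ∀ x y, ψ (e x) y + ψ x (e y) = ψ x y) (hss : Semisimple G)
    (hkind : ∀ W, Irreducible G W → KSp G W ∨ KTr G W) (htw : NoTwist G)
    (D : Module.End K V) :
    D ∈ derivedSpan G ↔ (∀ x y, ψ (D x) y + ψ x (D y) = 0) ∧
      (∀ T : Module.End K V, (∀ e ∈ G, e * T = T * e) → D * T = T * D) ∧
      ∀ W, Irreducible G W → ∀ A : Module.End K W, (∀ w, (A w : V) = D w) →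
        LinearMap.trace K W A = 0 := by
  constructor
  · intro hD
    obtain ⟨h1, h2, h3⟩ := derived_props hGψ hss hD
    exact ⟨h1, h2, fun W hW => h3 W hW.1⟩
  rintro ⟨hκ, hcomm, htr⟩
  obtain ⟨t, ht, hsup⟩ := exists_family hss
  -- representatives
  let r : Setoid {W : Submodule K V // W ∈ t} :=
    { r := fun W W' => Iso G W.1 W'.1
      iseqv := ⟨fun W => Iso.refl W.1, fun {W _} h => Iso.symm (ht W.1 W.2).1 h,
        fun {_ _ _} h h' => Iso.trans h h'⟩ }
  let WW : Quotient r → Submodule K V := fun i => i.out.1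
  have hWW : ∀ i, Irreducible G (WW i) := fun i => ht _ i.out.2
  have hWWn : ∀ i j, i ≠ j → ¬ Iso G (WW i) (WW j) := by
    intro i j hij h
    apply hij
    rw [← Quotient.out_eq i, ← Quotient.out_eq j]
    exact Quotient.sound h
  have hrep : ∀ U ∈ t, ∃ i, Iso G (WW i) U := by
    intro U hU
    refine ⟨Quotient.mk r ⟨U, hU⟩, ?_⟩
    exact Quotient.mk_out (⟨U, hU⟩ : {W : Submodule K V // W ∈ t})
  have hfin : Finite (Quotient r) := Quotient.finite r
  choose p hp hpe using fun i => exists_proj hss (hWW i).1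
  -- restriction
  let R : Module.End K V →ₗ[K] ∀ i, Module.End K (WW i) :=
    LinearMap.pi fun i => rst (p i)
  have hRi : ∀ x i, R x i = rst (p i) x := fun x i => rfl
  have hR : ∀ x : Module.End K V, ∀ i, (∀ w ∈ WW i, x w ∈ WW i) → ∀ w : WW i,
      (R x i w : V) = x w := fun x i hx w => rst_apply (hp i) hx w
  have hRmul : ∀ x y : Module.End K V, (∀ i, ∀ w ∈ WW i, x w ∈ WW i) →
      (∀ i, ∀ w ∈ WW i, y w ∈ WW i) → R (x * y) = R x * R y := by
    intro x y hx hy
    funext i
    exact rst_mul (hp i) (hx i) (hy i)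
  have hGst : ∀ e ∈ G, ∀ i, ∀ w ∈ WW i, e w ∈ WW i := fun e he i => (hWW i).1 e he
  have hgst : ∀ x ∈ lieSpan G, ∀ i, ∀ w ∈ WW i, x w ∈ WW i :=
    fun x hx i => stable_span (hWW i).1 x hx
  have hDst : ∀ U, Stable G U → ∀ w ∈ U, D w ∈ U := fun U hU => stable_of_comm hss hcomm hU
  have hI : ∀ i, IrrData ((lieSpan G).map (rst (p i))) (rst (p i) '' G) :=
    fun i => irrData hGe (hWW i) (hp i)
  have hsc : ∀ e ∈ G, ∀ i, Sc (R e) i → ScOn e (WW i) := by
    intro e he i h
    rcases h with h | h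
    · left
      intro w hw
      rw [← hR e i (hGst e he i) ⟨w, hw⟩, h]
      rfl
    · right
      intro w hw
      rw [← hR e i (hGst e he i) ⟨w, hw⟩, h]
      rfl
  have hpair : ∀ i j, Paired G (WW i) (WW j) → ∃ φ, Pairing (R '' G) i j φ := by
    rintro i j ⟨φ, hφ, h0⟩
    refine ⟨φ.compl₁₂ (WW i).subtype (WW j).subtype, ?_, ?_, ?_⟩
    · exact fun x hx => Subtype.ext (hφ.nd (hWW i) (hWW j).1 h0 x x.2 fun y hy => hx ⟨y, hy⟩)
    · exact fun y hy => Subtype.ext (hφ.nd_right (hWW i).1 (hWW j) h0 y y.2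
        fun x hx => hy ⟨x, hx⟩)
    · rintro _ ⟨e, he, rfl⟩ u v
      have h3 := hφ e he u u.2 v v.2
      rw [← hR e i (hGst e he i) u, ← hR e j (hGst e he j) v] at h3
      exact h3
  have H : Data ((lieSpan G).map R) (R '' G) := by
    refine ⟨?_, ?_, ?_, ?_, ?_, ?_, ?_, ?_, ?_, ?_⟩
    · exact fun i => Submodule.nontrivial_iff_ne_bot.2 (hWW i).2.1
    · rintro _ ⟨x, hx, rfl⟩ _ ⟨y, hy, rfl⟩
      refine ⟨x * y - y * x, lieSpan_lie x hx y hy, ?_⟩
      rw [map_sub, hRmul x y (hgst x hx) (hgst y hy), hRmul y x (hgst y hy) (hgst x hx)]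
    · rintro _ ⟨e, he, rfl⟩
      exact ⟨e, subset_lieSpan e he, rfl⟩
    · rintro _ ⟨e, he, rfl⟩
      rw [← hRmul e e (hGst e he) (hGst e he), hGe e he]
    · intro i U hU
      refine (hI i).hirr U ?_
      rintro _ ⟨e, he, rfl⟩
      exact hU _ ⟨e, he, rfl⟩
    · intro i
      rcases hkind (WW i) (hWW i) with ⟨φ, halt, hnd, hφ, hm⟩ | hsl
      · left
        refine ⟨φ, halt, hnd, ?_, ?_⟩
        · rintro _ ⟨e, he, rfl⟩ x y
          exact hφ e he x (R e i x) y (R e i y) (hR e i (hGst e he i) x)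
            (hR e i (hGst e he i) y)
        · intro u v
          obtain ⟨x, hx, hxm⟩ := hm u v
          refine ⟨R x, ⟨x, hx, rfl⟩, ?_⟩
          ext w
          rw [hR x i (hgst x hx i), hxm]
      · right
        intro Z hZ
        obtain ⟨x, hx, hxZ⟩ := hsl Z hZ
        refine ⟨R x, ⟨x, hx, rfl⟩, ?_⟩
        ext w
        rw [hR x i (hgst x hx i), hxZ]
    · rintro i j φ hφ _ ⟨x, hx, rfl⟩
      let g' : Submodule K (Module.End K V) :=
        { carrier := {x | (∀ k, ∀ w ∈ WW k, x w ∈ WW k) ∧ ∃ κ : K, ∀ u v,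
            φ (R x i u) v + φ u (R x j v) = κ * φ u v}
          add_mem' := by
            rintro x y ⟨hx, κ, hκ⟩ ⟨hy, κ', hκ'⟩
            refine ⟨fun k w hw => (WW k).add_mem (hx k w hw) (hy k w hw), κ + κ',
              fun u v => ?_⟩
            simp only [map_add, Pi.add_apply, LinearMap.add_apply]
            linear_combination hκ u v + hκ' u v
          zero_mem' := ⟨fun k w _ => (WW k).zero_mem, 0, fun u v => by simp⟩
          smul_mem' := by
            rintro c x ⟨hx, κ, hκ⟩
            refine ⟨fun k w hw => (WW k).smul_mem c (hx k w hw), c * κ, fun u v => ?_⟩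
            simp only [map_smul, Pi.smul_apply, LinearMap.smul_apply, smul_eq_mul]
            linear_combination c * hκ u v }
      refine ((lieSpan_le (g := g') ?_ ?_) hx).2
      · intro e he
        exact ⟨hGst e he, 1, fun u v => by rw [hφ.2.2 _ ⟨e, he, rfl⟩ u v, one_mul]⟩
      · rintro x ⟨hx, κ, hκ⟩ y ⟨hy, κ', hκ'⟩
        refine ⟨fun k w hw => (WW k).sub_mem (hx k _ (hy k w hw)) (hy k _ (hx k w hw)), 0,
          fun u v => ?_⟩
        rw [map_sub, hRmul x y hx hy, hRmul y x hy hx]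
        simp only [Pi.sub_apply, Pi.mul_apply, LinearMap.sub_apply, Module.End.mul_apply, map_sub]
        linear_combination hκ (R y i u) v + hκ u (R y j v) - hκ' (R x i u) v - hκ' u (R x j v) -
          κ' * hκ u v + κ * hκ' u v
    · intro i j hij f
      by_contra hcon
      push Not at hcon
      apply hWWn i j hij
      refine ⟨f.toLinearMap, ?_, f.bijective⟩
      intro e he u v huv
      have h1 := hcon _ ⟨e, he, rfl⟩ u
      have h2 : R e i u = v := Subtype.ext ((hR e i (hGst e he i) u).trans huv.symm)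
      rw [h2] at h1
      change (f v : V) = e (f u)
      rw [h1]
      exact hR e j (hGst e he j) (f u)
    · intro i j hij hi f hf
      have hT : Tw G (WW i) (WW j) := by
        have hs : ∀ u : WW i, ((WW j).subtype ∘ₗ f.toLinearMap ∘ₗ p i) u = f u := by
          intro u
          change ((f (p i u) : WW j) : V) = f u
          rw [hp i]
        refine ⟨(WW j).subtype ∘ₗ f.toLinearMap ∘ₗ p i, ?_, ?_, ?_⟩
        · ext y
          constructor
          · rintro ⟨u, hu, rfl⟩
            rw [hs ⟨u, hu⟩]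
            exact (f _).2
          · intro hy
            refine ⟨f.symm ⟨y, hy⟩, (f.symm _).2, ?_⟩
            rw [hs, LinearEquiv.apply_symm_apply]
        · intro u hu h
          rw [hs ⟨u, hu⟩] at h
          have h2 : f ⟨u, hu⟩ = 0 := Subtype.ext h
          have h3 := (LinearEquiv.map_eq_zero_iff f).1 h2
          exact congrArg Subtype.val h3
        · intro e he
          rcases hf _ ⟨e, he, rfl⟩ with h | ⟨h, h'⟩
          · left
            intro w hw
            have h2 : e w = ((R e i ⟨w, hw⟩ : WW i) : V) := (hR e i (hGst e he i) ⟨w, hw⟩).symm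
            rw [h2, hs, hs ⟨w, hw⟩, h ⟨w, hw⟩]
            exact hR e j (hGst e he j) _
          · exact Or.inr ⟨hsc e he i h, hsc e he j h'⟩
      rcases htw _ _ (hWW i) (hWW j) hi hT with h | h
      · exact absurd h (hWWn i j hij)
      · exact hpair i j h
    · intro i j hij hi φ h1 h2 hφ
      obtain ⟨U, hU, hψU, h0⟩ := exists_dual' hnd hGψ hsup (hWW i)
      obtain ⟨hT, hfr⟩ := tw_of_pairing (hWW i) (ht U hU) hψU h0 h1 h2 (hWW j).1 (by
        intro e he
        rcases hφ _ ⟨e, he, rfl⟩ with h | ⟨h, h'⟩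
        · left
          intro u u₂ v v₂ hu hv
          have h3 : R e i u = u₂ := Subtype.ext ((hR e i (hGst e he i) u).trans hu.symm)
          have h4 : R e j v = v₂ := Subtype.ext ((hR e j (hGst e he j) v).trans hv.symm)
          rw [← h3, ← h4]
          exact h u v
        · exact Or.inr ⟨hsc e he i h, hsc e he j h'⟩)
      rcases htw _ _ (ht U hU) (hWW j) (by rw [hfr]; exact hi) hT with h | h
      · have h3 : Paired G (WW i) U := ⟨ψ, hψU, h0⟩
        exact hpair i j (h3.of_iso_right (hWW j).1 (Iso.symm (ht U hU).1 h))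
      · exfalso
        have h3 : Paired G U (WW i) := Paired.symm ⟨ψ, hψU, h0⟩
        exact hWWn i j hij (Iso.symm (hWW j).1 (Paired.iso (ht U hU) (hWW i) (hWW j) h3 h))
  -- the restriction of `D` belongs to the image
  have hRD : R D ∈ (derivedSpan G).map R := by
    have h1 : R D ∈ Submodule.span K {z | ∃ a ∈ (lieSpan G).map R, ∃ b ∈ (lieSpan G).map R,
        z = a * b - b * a} := by
      rw [H.full]
      refine ⟨fun i => htr _ (hWW i) _ fun w => hR D i (hDst _ (hWW i).1) w, ?_⟩
      intro i j φ hφ u v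
      refine pair_irr hss hnd hGψ hκ hcomm ht hsup (hWW i) (hWW j) hφ.1 hφ.2.1 ?_ u (R D i u) v
        (R D j v) (hR D i (hDst _ (hWW i).1) u) (hR D j (hDst _ (hWW j).1) v)
      intro e he u u₂ v v₂ hu hv
      have h2 : R e i u = u₂ := Subtype.ext ((hR e i (hGst e he i) u).trans hu.symm)
      have h3 : R e j v = v₂ := Subtype.ext ((hR e j (hGst e he j) v).trans hv.symm)
      rw [← h2, ← h3]
      exact hφ.2.2 _ ⟨e, he, rfl⟩ u v
    refine (Submodule.span_le.2 ?_ : _ ≤ (derivedSpan G).map R) h1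
    rintro _ ⟨_, ⟨a, ha, rfl⟩, _, ⟨b, hb, rfl⟩, rfl⟩
    refine ⟨a * b - b * a, Submodule.subset_span ⟨a, ha, b, hb, rfl⟩, ?_⟩
    rw [map_sub, hRmul a b (hgst a ha) (hgst b hb), hRmul b a (hgst b hb) (hgst a ha)]
  obtain ⟨x, hx, hxD⟩ := hRD
  have hxl := derived_le hx
  have hxcomm : ∀ T : Module.End K V, (∀ e ∈ G, e * T = T * e) → x * T = T * x :=
    fun T hT => comm_span hT x hxl
  have hDx : ∀ i, ∀ w : WW i, D w = x w := by
    intro i w
    rw [← hR D i (hDst _ (hWW i).1), ← hR x i (hgst x hxl i), hxD]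
  suffices h : D = x by rw [h]; exact hx
  have hle : t.sup id ≤ LinearMap.ker (D - x) := by
    refine Finset.sup_le fun U hU u hu => ?_
    obtain ⟨i, f, hf, hfb⟩ := hrep U hU
    obtain ⟨w, hw⟩ := hfb.2 ⟨u, hu⟩
    have h1 := comm_of_equiv hss hcomm (hWW i).1 hf w ⟨D w, hDst _ (hWW i).1 w w.2⟩ rfl
    have h2 := comm_of_equiv hss hxcomm (hWW i).1 hf w ⟨D w, hDst _ (hWW i).1 w w.2⟩ (hDx i w)
    rw [hw] at h1 h2
    rw [LinearMap.mem_ker, LinearMap.sub_apply, sub_eq_zero]
    change D u = x u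
    rw [← h1, h2]
  rw [hsup] at hle
  ext v
  have h3 : v ∈ LinearMap.ker (D - x) := hle Submodule.mem_top
  rw [LinearMap.mem_ker, LinearMap.sub_apply, sub_eq_zero] at h3
  exact h3

end Pool.Agent.Twist
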